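import Pool.Agent.R433.MD.FuncEq

/-!
# Functional equations from number fields of large degree

`E` is an elliptic curve over a number field `K`, `2 ^ a` a power of two and `n` an odd number.  There
are finitely many finite extensions `F_i / K` of degree divisible by `2 ^ a` and finitely many finite
extensions `F'_j / K` of degree divisible by `n` such that: if all `L(E/F_i, s)` and `L(E/F'_j, s)` have
meromorphic continuations to the plane, and those of the `L(E/F_i, s)` satisfy the functional equation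
between `s` and `2 - s` with the expected gamma factors, then `L(E/K, s)` has a meromorphic
continuation to the plane which satisfies this functional equation.

Nothing is assumed about `E` or `K`.  The Euler products are those of the problem, with the factors at
all the bad primes.
-/

set_option autoImplicit false

namespace Pool.Agent.Results.MP_bf61d2_nt.FunctionalEquationDescent

open NumberField IsDedekindDomain Filter Topology

/-- `V v` is, for every prime `v`, an integral model of `E` with discriminant minimal at `v`. -/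
def MinimalModels {K : Type} [Field K] [NumberField K] (E : WeierstrassCurve K)
    (V : HeightOneSpectrum (𝓞 K) → WeierstrassCurve (𝓞 K)) : Prop :=
  ∀ v : HeightOneSpectrum (𝓞 K),
    (∃ C : WeierstrassCurve.VariableChange K, C • (V v).map (algebraMap (𝓞 K) K) = E) ∧
    ∀ W : WeierstrassCurve (𝓞 K),
      (∃ C : WeierstrassCurve.VariableChange K, C • W.map (algebraMap (𝓞 K) K) = E) →
        ∀ n : ℕ, (V v).Δ ∈ v.asIdeal ^ n → W.Δ ∈ v.asIdeal ^ n

open Classical in
/-- The Euler product of `L(E/K, s)` over all primes `v` of `K`, computed from the reductions of the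
models `V v`. -/
noncomputable def LSeries {K : Type} [Field K] [NumberField K]
    (V : HeightOneSpectrum (𝓞 K) → WeierstrassCurve (𝓞 K)) (s : ℂ) : ℂ :=
  ∏' v : HeightOneSpectrum (𝓞 K),
    (1 - ((Ideal.absNorm v.asIdeal : ℂ)
          - (Nat.card {xy : (𝓞 K ⧸ v.asIdeal) × (𝓞 K ⧸ v.asIdeal) //
              ((V v).map (Ideal.Quotient.mk v.asIdeal)).toAffine.Equation xy.1 xy.2} : ℂ))
          * (Ideal.absNorm v.asIdeal : ℂ) ^ (-s)
      + (if (V v).Δ ∈ v.asIdeal then 0 else (Ideal.absNorm v.asIdeal : ℂ))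
          * (Ideal.absNorm v.asIdeal : ℂ) ^ (-2 * s))⁻¹

/-- `Λ` is a meromorphic continuation of `L(E/K, s)` to the plane. -/
def IsContinuation {K : Type} [Field K] [NumberField K] (E : WeierstrassCurve K) (Λ : ℂ → ℂ) :
    Prop :=
  MeromorphicOn Λ Set.univ ∧
    ∀ V : HeightOneSpectrum (𝓞 K) → WeierstrassCurve (𝓞 K), MinimalModels E V →
      ∀ s : ℂ, 3 / 2 < s.re → Λ s = LSeries V s

/-- The completed function `N^{s/2} π^{-ds} (Γ(s/2) Γ((s+1)/2))^d Λ(s)`. -/
noncomputable def completed (N : ℝ) (d : ℕ) (Λ : ℂ → ℂ) (s : ℂ) : ℂ :=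
  (N : ℂ) ^ (s / 2) * (Real.pi : ℂ) ^ (-(d : ℂ) * s) *
    (Complex.Gamma (s / 2) * Complex.Gamma ((s + 1) / 2)) ^ d * Λ s

/-- `L(E/K, s)` has a meromorphic continuation to the plane, and for some `N > 0` and some sign the
completed function satisfies the functional equation between `s` and `2 - s` (outside the poles, which
form a set without accumulation points). -/
def HasFunctionalEquation {K : Type} [Field K] [NumberField K] (E : WeierstrassCurve K) : Prop :=
  ∃ Λ : ℂ → ℂ, IsContinuation E Λ ∧ ∃ (N : ℝ) (w : ℂ), 0 < N ∧ (w = 1 ∨ w = -1) ∧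
    ∀ z : ℂ, ∀ᶠ s in 𝓝[≠] z, w * completed N (Module.finrank ℚ K) Λ s =
      completed N (Module.finrank ℚ K) Λ (2 - s)

section Aux

open Pool.Agent.H341R2.EC Pool.Agent.R433.MD
open Pool.Agent.H921R2.TatePole (nm two_le_nm)

variable {K : Type} [Field K] [NumberField K]

theorem isModel_iff (E : WeierstrassCurve K) (W : WeierstrassCurve (𝓞 K)) :
    (∃ C : WeierstrassCurve.VariableChange K, C • W.map (algebraMap (𝓞 K) K) = E) ↔
      IsModel E W := by
  constructor
  · rintro ⟨C, hC⟩
    exact ⟨C⁻¹, by rw [← hC, inv_smul_smul]⟩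
  · rintro ⟨C, hC⟩
    exact ⟨C⁻¹, by rw [← hC, inv_smul_smul]⟩

theorem minimalModels_iff (E : WeierstrassCurve K)
    (V : HeightOneSpectrum (𝓞 K) → WeierstrassCurve (𝓞 K)) :
    MinimalModels E V ↔ ∀ v, IsMinAt E v (V v) := by
  unfold MinimalModels IsMinAt
  simp only [isModel_iff]

theorem lseries_eq (V : HeightOneSpectrum (𝓞 K) → WeierstrassCurve (𝓞 K)) (s : ℂ) :
    LSeries V s = LL V s := by
  unfold LSeries LL
  refine tprod_congr fun v => ?_
  congr 1
  unfold lf trc dlt
  have h0 : ((nm v : ℕ) : ℂ) ≠ 0 := by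
    have := two_le_nm v
    exact_mod_cast (by omega : nm v ≠ 0)
  have e1 : Nat.card {xy : (𝓞 K ⧸ v.asIdeal) × (𝓞 K ⧸ v.asIdeal) //
      ((V v).map (Ideal.Quotient.mk v.asIdeal)).toAffine.Equation xy.1 xy.2} =
      aff (red v (V v)) := by
    unfold aff red
    refine Nat.card_congr (Equiv.subtypeEquivRight fun xy => ?_)
    rw [WeierstrassCurve.Affine.equation_iff]
  have e2 : ((nm v : ℕ) : ℂ) ^ (1 - 2 * s) = ((nm v : ℕ) : ℂ) * ((nm v : ℕ) : ℂ) ^ (-2 * s) := by
    rw [sub_eq_add_neg, Complex.cpow_add _ _ h0, Complex.cpow_one]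
    congr 2
    ring
  have e3 : (Ideal.absNorm v.asIdeal : ℂ) = ((nm v : ℕ) : ℂ) := rfl
  rw [e1, e2, e3]
  push_cast
  split_ifs with h
  · ring
  · ring

theorem completed_eq {N t : ℝ} (hN : 0 < N) (ht : t = Real.log N / 2) (d : ℕ) (Λ : ℂ → ℂ) (s : ℂ) :
    completed N d Λ s = Phi t d Λ s := by
  have hN' : (N : ℂ) ≠ 0 := Complex.ofReal_ne_zero.2 hN.ne'
  have e1 : (N : ℂ) ^ (s / 2) = Complex.exp (t * s) := by
    rw [Complex.cpow_def_of_ne_zero hN', ← Complex.ofReal_log hN.le, ht]
    congr 1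
    push_cast
    ring
  have e2 : (Real.pi : ℂ) ^ (-(d : ℂ) * s) = ((Real.pi : ℂ) ^ (-s)) ^ d := by
    rw [← Complex.cpow_nat_mul]
    congr 1
    ring
  unfold completed Phi GG
  rw [e1, e2, mul_pow]
  ring

theorem isContinuation_iff {E : WeierstrassCurve K} (hE : E.IsElliptic) (Λ : ℂ → ℂ) :
    IsContinuation E Λ ↔ MeromorphicOn Λ Set.univ ∧
      ∃ V : HeightOneSpectrum (𝓞 K) → WeierstrassCurve (𝓞 K), (∀ v, IsMinAt E v (V v)) ∧
        ∀ s : ℂ, 3 / 2 < s.re → Λ s = LL V s ^ 1 := by
  unfold IsContinuation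
  simp only [minimalModels_iff, lseries_eq, pow_one]
  refine and_congr_right fun _ => ⟨fun h => ?_, ?_⟩
  · obtain ⟨V, hV⟩ := exists_minimal E hE
    exact ⟨V, hV, h V hV⟩
  · rintro ⟨V, hV, h⟩ V' hV' s hs
    rw [h s hs, LL_unique hE hV hV' s]

theorem exists_continuation_iff {E : WeierstrassCurve K} (hE : E.IsElliptic) :
    (∃ Λ : ℂ → ℂ, IsContinuation E Λ) ↔ Pool.Agent.R433.MD.Cont E Set.univ 1 := by
  constructor
  · rintro ⟨Λ, h⟩
    obtain ⟨h1, V, hV, h2⟩ := (isContinuation_iff hE Λ).1 h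
    exact ⟨V, hV, Λ, h1, h2⟩
  · rintro ⟨V, hV, Λ, h1, h2⟩
    exact ⟨Λ, (isContinuation_iff hE Λ).2 ⟨h1, V, hV, h2⟩⟩

theorem hasFunctionalEquation_iff {E : WeierstrassCurve K} (hE : E.IsElliptic) :
    HasFunctionalEquation E ↔ Pool.Agent.R433.MD.FE E 1 := by
  constructor
  · rintro ⟨Λ, h, N, w, hN, hw, hF⟩
    obtain ⟨h1, V, hV, h2⟩ := (isContinuation_iff hE Λ).1 h
    refine ⟨V, hV, Λ, h1, h2, Real.log N / 2, w, hw, fun z => ?_⟩
    filter_upwards [hF z] with s hs
    rw [completed_eq hN rfl, completed_eq hN rfl] at hs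
    rw [one_mul]
    exact hs
  · rintro ⟨V, hV, Λ, h1, h2, t, w, hw, hF⟩
    have ht : t = Real.log (Real.exp (2 * t)) / 2 := by
      rw [Real.log_exp]
      ring
    refine ⟨Λ, (isContinuation_iff hE Λ).2 ⟨h1, V, hV, h2⟩, Real.exp (2 * t), w, Real.exp_pos _,
      hw, fun z => ?_⟩
    filter_upwards [hF z] with s hs
    rw [completed_eq (Real.exp_pos _) ht, completed_eq (Real.exp_pos _) ht]
    rw [one_mul] at hs
    exact hs

end Aux

/-- **Descent of the functional equation.**  Let `E` be an elliptic curve over a number field `K`, `a`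
a non-negative integer and `n` an odd positive integer.  There are finite extensions `F_1, ..., F_r` of
`K` of degrees divisible by `2 ^ a` and dividing `4 ^ a`, and `F'_1, ..., F'_q` of degrees divisible by
`n` and dividing `n ^ 2`, such that: if for all `i` the function `L(E/F_i, s)` has a meromorphic
continuation and a functional equation, and for all `j` the function `L(E/F'_j, s)` has a meromorphic
continuation, then `L(E/K, s)` has a meromorphic continuation and a functional equation. -/
theorem result (K : Type) [Field K] [NumberField K] (E : WeierstrassCurve K) (hE : E.IsElliptic)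
    (a n : ℕ) (hn : 0 < n) (hodd : Odd n) :
    ∃ (r : ℕ) (F : Fin r → Type) (_ : ∀ i, Field (F i)) (_ : ∀ i, NumberField (F i))
      (_ : ∀ i, Algebra K (F i))
      (q : ℕ) (F' : Fin q → Type) (_ : ∀ j, Field (F' j)) (_ : ∀ j, NumberField (F' j))
      (_ : ∀ j, Algebra K (F' j)),
      (∀ i, 2 ^ a ∣ Module.finrank K (F i) ∧ Module.finrank K (F i) ∣ 4 ^ a) ∧
      (∀ j, n ∣ Module.finrank K (F' j) ∧ Module.finrank K (F' j) ∣ n ^ 2) ∧
      ((∀ i, HasFunctionalEquation (E.map (algebraMap K (F i)))) →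
        (∀ j, ∃ Λ : ℂ → ℂ, IsContinuation (E.map (algebraMap K (F' j))) Λ) →
        HasFunctionalEquation E) := by
  obtain ⟨r, Z, q, X, hZ, hX, h⟩ := Pool.Agent.R433.MD.fe_main a hn hodd K E hE
  refine ⟨r, fun i => (Z i).F, fun i => (Z i).field, fun i => (Z i).nf, fun i => (Z i).alg,
    q, fun i => (X i).F, fun i => (X i).field, fun i => (X i).nf, fun i => (X i).alg, hZ, hX,
    fun h1 h2 => ?_⟩
  rw [hasFunctionalEquation_iff hE]
  exact h (fun i => (hasFunctionalEquation_iff inferInstance).1 (h1 i))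
    (fun j => (exists_continuation_iff inferInstance).1 (h2 j))

end Pool.Agent.Results.MP_bf61d2_nt.FunctionalEquationDescent
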