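import Pool.Agent.R765.Ga10
import Pool.Agent.W189.NF.LSer

/-!
# The Hasse-Weil conjecture for elliptic curves over number fields and Gaussian sums

Let `E` be an elliptic curve over a number field `K` of degree `d` and `L(E/K, s) = ∑ a_n n^(-s)` its
L-function (`E.LFunction` and `E.LSeries` in Mathlib, with all Euler factors). NO CONTINUATION OF
`L(E/K, s)` IS ASSUMED. For real `b` and `T > 0` put

`G_b(T) = ∑_{n ≥ 1} a_n n^b exp (-(log n)² / (4T))`.

This series converges absolutely. The trivial bound is `G_b(T) = O(exp ((b + 3/2 + ε)² T))`. For `x > 0` let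

`M_b(x) = (x/√π) ∫_0^∞ exp (-x² T) G_b(T) dT/√T`.

Let `R(b, c)` be the set of the `s` with `Re (s + b) > 0` and `Re (s + b)² > c` (for `c = 0` this is the
sector `|Im s| < Re s + b`). The following is proved for all `K` and `E`.

(1) Let `b` be real and `c ≥ 0`. Then `L(E/K, s)` has a holomorphic continuation to `R(b, c)` if and only
if `G_b(T) = O(exp ((c + ε) T))` for every `ε > 0`, and then `L(E/K, x - b) = M_b(x)` for `x > √c`.

(2) Equivalent:
* `L(E/K, s)` extends to an entire function;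
* `G_b(T) = O(exp (ε T))` for all real `b` and all `ε > 0`;
* for one `κ < 1` there are arbitrarily large `b` with `G_b(T) = O(exp (κ b² T))`.

(3) Let `N > 0` and `w` be given (for the problem the conductor and the global root number), and
`L*(s) = N^(s/2) π^(-ds) (Γ(s/2) Γ((s+1)/2))^d L(E/K, s)`. Equivalent:
* `L(E/K, s)` extends to an entire function and `w L*(s) = L*(2 - s)` for all `s`;
* for all real `b`: `G_b(T) = O(exp (ε T))` for all `ε > 0`, and for `0 < x < b`, `x - b` not an integer,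
  `M_b(x)` is the value which the functional equation predicts for the divergent series
  `∑ a_n n^(b-x)`, in terms of the convergent series `∑ a_n n^(-(2+b-x))`;
* for one `κ` in `[0, 1)` there are arbitrarily large `b` such that `G_b(T) = O(exp (κ b² T))` and `M_b(x)`
  is this value for `√κ b < x < b`, `x - b` not an integer.

So the whole conjecture for `E/K` is a statement about explicit sums of the coefficients `a_n`: any saving of a
constant factor in the exponent of the trivial bound for arbitrarily large `b` gives the continuation to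
`ℂ`, and the functional equation is the summability of the divergent series to the right values. There is no
condition on the growth of `L(E/K, s)` in vertical strips.

Proof. The Laplace transform of `G_b(T)/√(π T)` is `L(E/K, √z - b)/√z`; without the term for `n = 1` it decays
like `exp (-c √|z|)` on the right of every vertical line where it can be continued.
-/

set_option autoImplicit false

namespace Pool.Agent.Results.MP_bf61d2_nt.GaussianSummability

open Filter Topology NumberField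

variable {K : Type} [Field K] [NumberField K]

/-- `G_b(T) = ∑_{n ≥ 1} a_n n^b exp (-(log n)² / (4T))` (`a_0 = 0`). -/
noncomputable def gauss (E : WeierstrassCurve K) (b T : ℝ) : ℝ :=
  ∑' n : ℕ, (E.LFunction n : ℝ) * ((n : ℝ) ^ b * Real.exp (-(Real.log n ^ 2 / (4 * T))))

/-- `M_b(x) = (x/√π) ∫_0^∞ exp (-x² T) G_b(T) dT/√T`. -/
noncomputable def mean (E : WeierstrassCurve K) (b x : ℝ) : ℝ :=
  x / Real.sqrt Real.pi *
    ∫ T in Set.Ioi (0 : ℝ), Real.exp (-(x ^ 2 * T)) / Real.sqrt T * gauss E b T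

/-- `G_b(T) = O(exp (η T))` as `T → ∞`. -/
def Grows (E : WeierstrassCurve K) (b η : ℝ) : Prop :=
  ∃ C : ℝ, ∀ᶠ T : ℝ in atTop, |gauss E b T| ≤ C * Real.exp (η * T)

/-- The region `Re (s + b) > 0`, `Re (s + b)² > c`. -/
def Region (b c : ℝ) : Set ℂ := {s | 0 < (s + b).re ∧ c < ((s + b) ^ 2).re}

/-- `N^(s/2) π^(-ds) (Γ(s/2) Γ((s+1)/2))^d`. -/
noncomputable def gammaFactor (d : ℕ) (N : ℝ) (s : ℂ) : ℂ :=
  (N : ℂ) ^ (s / 2) * (Real.pi : ℂ) ^ (-((d : ℂ) * s)) *
    (Complex.Gamma (s / 2) * Complex.Gamma ((s + 1) / 2)) ^ d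

/-- The functional equation `w L*(s) = L*(2 - s)`, for the values `u` of `L` at `s` and `v` of `L` at
`2 - s`. -/
def FunctionalEquation (d : ℕ) (N : ℝ) (w s u v : ℂ) : Prop :=
  w * (gammaFactor d N s * u) = gammaFactor d N (2 - s) * v

/-- `L(E/K, s)` extends to an entire function, and the functional equation holds for all `s` (outside the
poles `s = 0, -1, -2, …` and `s = 2, 3, 4, …` of the Gamma factors). -/
def HasseWeil (E : WeierstrassCurve K) (N : ℝ) (w : ℂ) : Prop :=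
  ∃ L : ℂ → ℂ, Differentiable ℂ L ∧ (∀ s : ℂ, 2 < s.re → L s = E.LSeries s) ∧
    ∀ s : ℂ, (∀ n : ℕ, s ≠ -(n : ℂ) ∧ s ≠ (n : ℂ) + 2) →
      FunctionalEquation (Module.finrank ℚ K) N w s (L s) (L (2 - s))

open Pool.Agent.R765.Ga

/-- the coefficients -/
noncomputable abbrev co (E : WeierstrassCurve K) (n : ℕ) : ℂ := ((E.LFunction n : ℤ) : ℂ)

theorem co_zero (E : WeierstrassCurve K) : co E 0 = 0 := by
  unfold co
  simp

theorem co_summable (E : WeierstrassCurve K) (s : ℝ) (hs : 2 < s) : LSeriesSummable (co E) s :=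
  (Pool.Agent.W189.NF.LSeries_hasProd (E := E) (s := (s : ℂ)) (by simpa using hs)).1

theorem gauss_eq (E : WeierstrassCurve K) (b T : ℝ) : ((gauss E b T : ℝ) : ℂ) = gN (co E) b T := by
  unfold gauss gN co
  rw [Complex.ofReal_tsum]
  refine tsum_congr fun n => ?_
  push_cast
  ring

theorem mean_eq (E : WeierstrassCurve K) (b x : ℝ) : ((mean E b x : ℝ) : ℂ) = mN (co E) b x := by
  unfold mean mN
  rw [Complex.ofReal_mul]
  congr 1
  have h : ∫ T in Set.Ioi (0 : ℝ), ((Real.exp (-(x ^ 2 * T)) / Real.sqrt T * gauss E b T : ℝ) : ℂ) =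
      ((∫ T in Set.Ioi (0 : ℝ), Real.exp (-(x ^ 2 * T)) / Real.sqrt T * gauss E b T : ℝ) : ℂ) :=
    integral_ofReal
  rw [← h]
  congr 1
  funext T
  rw [← gauss_eq, Complex.ofReal_mul]

theorem grows_iff (E : WeierstrassCurve K) (b η : ℝ) : Grows E b η ↔
    ∃ C : ℝ, ∀ᶠ T : ℝ in atTop, ‖gN (co E) b T‖ ≤ C * Real.exp (η * T) := by
  unfold Grows
  simp only [← gauss_eq, Complex.norm_real, Real.norm_eq_abs]

theorem Grows.mono {E : WeierstrassCurve K} {b η η' : ℝ} (h : η ≤ η') (hG : Grows E b η) :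
    Grows E b η' := by
  obtain ⟨C, hC⟩ := hG
  refine ⟨|C|, ?_⟩
  filter_upwards [hC, eventually_ge_atTop 0] with T k1 k2
  refine k1.trans ?_
  have k3 : Real.exp (η * T) ≤ Real.exp (η' * T) :=
    Real.exp_le_exp.2 (mul_le_mul_of_nonneg_right h k2)
  exact mul_le_mul (le_abs_self C) k3 (Real.exp_pos _).le (abs_nonneg C)

/-- **The Gaussian criterion for the Hasse-Weil conjecture.** -/
theorem result (K : Type) [Field K] [NumberField K] (E : WeierstrassCurve K) :
    (∀ b c : ℝ, 0 ≤ c →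
      ((∃ L : ℂ → ℂ, (∀ s ∈ Region b c, DifferentiableAt ℂ L s) ∧
        ∀ s ∈ Region b c, 2 < s.re → L s = E.LSeries s) ↔ ∀ ε : ℝ, 0 < ε → Grows E b (c + ε)) ∧
      ∀ L : ℂ → ℂ, (∀ s ∈ Region b c, DifferentiableAt ℂ L s) →
        (∀ s ∈ Region b c, 2 < s.re → L s = E.LSeries s) →
        ∀ x : ℝ, 0 < x → c < x ^ 2 → L ((x - b : ℝ) : ℂ) = mean E b x) ∧
    List.TFAE [
      ∃ L : ℂ → ℂ, Differentiable ℂ L ∧ ∀ s : ℂ, 2 < s.re → L s = E.LSeries s,
      ∀ b ε : ℝ, 0 < ε → Grows E b ε,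
      ∃ κ : ℝ, κ < 1 ∧ ∀ b₀ : ℝ, ∃ b : ℝ, b₀ ≤ b ∧ Grows E b (κ * b ^ 2)] ∧
    ∀ (N : ℝ) (w : ℂ), 0 < N → List.TFAE [
      HasseWeil E N w,
      ∀ b : ℝ, (∀ ε : ℝ, 0 < ε → Grows E b ε) ∧
        ∀ x : ℝ, 0 < x → x < b → (∀ n : ℤ, x - b ≠ n) →
          FunctionalEquation (Module.finrank ℚ K) N w ((x - b : ℝ) : ℂ) (mean E b x)
            (E.LSeries ((2 + b - x : ℝ) : ℂ)),
      ∃ κ : ℝ, 0 ≤ κ ∧ κ < 1 ∧ ∀ b₀ : ℝ, ∃ b : ℝ, b₀ ≤ b ∧ Grows E b (κ * b ^ 2) ∧
        ∀ x : ℝ, Real.sqrt κ * b < x → x < b → (∀ n : ℤ, x - b ≠ n) →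
          FunctionalEquation (Module.finrank ℚ K) N w ((x - b : ℝ) : ℂ) (mean E b x)
            (E.LSeries ((2 + b - x : ℝ) : ℂ))] := by
  have h0 := co_zero E
  have hs := co_summable E
  have h1 : ∀ b c : ℝ, 0 ≤ c →
      ((∃ L : ℂ → ℂ, (∀ s ∈ Region b c, DifferentiableAt ℂ L s) ∧
        ∀ s ∈ Region b c, 2 < s.re → L s = E.LSeries s) ↔ ∀ ε : ℝ, 0 < ε → Grows E b (c + ε)) := by
    intro b c hc
    have := hol_gN h0 hs b hc
    simp only [grows_iff]
    exact this
  have h2 : ∀ (b c : ℝ), 0 ≤ c → ∀ L : ℂ → ℂ, (∀ s ∈ Region b c, DifferentiableAt ℂ L s) →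
        (∀ s ∈ Region b c, 2 < s.re → L s = E.LSeries s) →
        ∀ x : ℝ, 0 < x → c < x ^ 2 → L ((x - b : ℝ) : ℂ) = mean E b x := by
    intro b c hc L k1 k2 x hx hx2
    rw [mean_eq]
    exact value_gN h0 hs b hc (G := L) k1 k2 hx hx2
  have h3 : ∀ L : ℂ → ℂ, Differentiable ℂ L → (∀ s : ℂ, 2 < s.re → L s = E.LSeries s) →
      ∀ b ε : ℝ, 0 < ε → Grows E b ε := by
    intro L k1 k2 b ε hε
    have := (h1 b 0 le_rfl).1 ⟨L, fun s _ => k1 s, fun s _ hs => k2 s hs⟩ ε hε
    rwa [zero_add] at this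
  have h4 : ∀ κ : ℝ, κ < 1 → (∀ b₀ : ℝ, ∃ b : ℝ, b₀ ≤ b ∧ Grows E b (κ * b ^ 2)) →
      ∃ L : ℂ → ℂ, Differentiable ℂ L ∧ ∀ s : ℂ, 2 < s.re → L s = E.LSeries s := by
    intro κ hκ h
    refine glue_hol (σ := 2) (L := E.LSeries) fun s => ?_
    have hκ' : max κ 0 < 1 := max_lt hκ one_pos
    obtain ⟨b₀, hb₀⟩ := mem_Rb hκ' s
    obtain ⟨b, hb, k1⟩ := h b₀
    have hc : 0 ≤ max κ 0 * b ^ 2 := by
      have : 0 ≤ max κ 0 := le_max_right _ _
      positivity
    have hle : κ * b ^ 2 ≤ max κ 0 * b ^ 2 :=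
      mul_le_mul_of_nonneg_right (le_max_left _ _) (sq_nonneg _)
    obtain ⟨G, g1, g2⟩ := (h1 b (max κ 0 * b ^ 2) hc).2 fun ε hε => k1.mono (by linarith)
    exact ⟨Rb b (max κ 0 * b ^ 2), Rb_open _ _, hb₀ b hb, fun z hz t ht => Rb_add b hz ht, G, g1, g2⟩
  refine ⟨fun b c hc => ⟨h1 b c hc, h2 b c hc⟩, ?_, ?_⟩
  · tfae_have 1 → 2 := by
      rintro ⟨L, k1, k2⟩
      exact h3 L k1 k2
    tfae_have 2 → 3 := by
      intro h
      refine ⟨1 / 2, by norm_num, fun b₀ => ⟨max b₀ 1, le_max_left _ _, ?_⟩⟩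
      have h2 : (1 : ℝ) ≤ max b₀ 1 := le_max_right _ _
      exact h (max b₀ 1) (1 / 2 * (max b₀ 1) ^ 2) (by positivity)
    tfae_have 3 → 1 := by
      rintro ⟨κ, hκ, h⟩
      exact h4 κ hκ h
    tfae_finish
  · intro N w hN
    tfae_have 1 → 2 := by
      rintro ⟨L, k1, k2, k3⟩ b
      refine ⟨h3 L k1 k2 b, fun x hx hxb hn => ?_⟩
      have k4 := h2 b 0 le_rfl L (fun s _ => k1 s) (fun s _ hs => k2 s hs) x hx (by positivity)
      have e1 : (2 : ℂ) - ((x - b : ℝ) : ℂ) = ((2 + b - x : ℝ) : ℂ) := by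
        push_cast
        ring
      have k5 := k3 ((x - b : ℝ) : ℂ) fun n => ⟨fun h => hn (-(n : ℤ)) (by
        have : ((x - b : ℝ) : ℂ) = ((-(n : ℝ) : ℝ) : ℂ) := by
          rw [h]
          push_cast
          rfl
        have := Complex.ofReal_injective this
        rw [this]
        push_cast
        rfl), fun h => hn ((n : ℤ) + 2) (by
        have : ((x - b : ℝ) : ℂ) = (((n : ℝ) + 2 : ℝ) : ℂ) := by
          rw [h]
          push_cast
          rfl
        have := Complex.ofReal_injective this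
        rw [this]
        push_cast
        rfl)⟩
      unfold FunctionalEquation at k5 ⊢
      rw [e1] at k5 ⊢
      rw [k4, k2 _ (by rw [Complex.ofReal_re]; linarith)] at k5
      exact k5
    tfae_have 2 → 3 := by
      intro h
      refine ⟨1 / 2, by norm_num, by norm_num, fun b₀ => ⟨max b₀ 1, le_max_left _ _, ?_⟩⟩
      have h2 : (1 : ℝ) ≤ max b₀ 1 := le_max_right _ _
      obtain ⟨k1, k2⟩ := h (max b₀ 1)
      refine ⟨k1 (1 / 2 * (max b₀ 1) ^ 2) (by positivity), fun x hx hxb hn => k2 x ?_ hxb hn⟩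
      exact lt_of_le_of_lt (by positivity) hx
    tfae_have 3 → 1 := by
      rintro ⟨κ, hκ0, hκ, h⟩
      obtain ⟨L, k1, k2⟩ := h4 κ hκ fun b₀ => by
        obtain ⟨b, hb, hG, -⟩ := h b₀
        exact ⟨b, hb, hG⟩
      obtain ⟨b, hb, -, hF⟩ := h 1
      have hb0 : 0 < b := by linarith
      have hκ1 : Real.sqrt κ < 1 := by
        rw [Real.sqrt_lt' one_pos]
        linarith
      have hκ2 : 0 ≤ Real.sqrt κ := Real.sqrt_nonneg κ
      refine ⟨L, k1, k2, ?_⟩
      refine fe_of_interval (Module.finrank ℚ K) hN w k1 (α := Real.sqrt κ * b - b) (β := 0)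
        (by nlinarith) fun y hy1 hy2 hy3 => ?_
      have k3 := hF (y + b) (by linarith) (by linarith) (fun n => by
        rw [add_sub_cancel_right]
        exact hy3 n)
      have k4 := h2 b 0 le_rfl L (fun s _ => k1 s) (fun s _ hs => k2 s hs) (y + b) (by nlinarith)
        (by
          have : 0 < y + b := by nlinarith
          positivity)
      rw [add_sub_cancel_right] at k3 k4
      have e1 : ((2 + b - (y + b) : ℝ) : ℂ) = 2 - (y : ℂ) := by
        push_cast
        ring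
      rw [e1, ← k4] at k3
      have k5 := k2 (2 - (y : ℂ)) (by
        rw [Complex.sub_re, Complex.ofReal_re]
        have : (2 : ℂ).re = 2 := rfl
        rw [this]
        linarith)
      rw [k5]
      exact k3
    tfae_finish

end Pool.Agent.Results.MP_bf61d2_nt.GaussianSummability
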