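import Pool.Agent.R433.AT.Equal

/-!
# Modular elliptic curves over `ℚ`: all Artin twists on the edge of absolute convergence

`E_i : y² = x³ + a_i x + b_i` are finitely many modular elliptic curves over `ℚ`, pairwise not
isogenous, and `ρ_k` finitely many Artin representations of `Gal(ℚ̄/ℚ)`, trivial on an open normal
subgroup `U`.  `L(E_i ⊗ ρ_k, s)` is the Euler product over the primes whose factor is, for all but
finitely many primes `p`, `det(1 - a_p p^{-s} ρ(Frob_p⁻¹) + p^{1 - 2s} ρ(Frob_p⁻¹)²)⁻¹`,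
`a_p = p + 1 - #E_i(𝔽_p)`.  If `ρ` is the permutation representation on the embeddings of a number
field `K` this is `L(E_i/K, s)`.

The newforms of the curves are orthonormal in the sense of Rankin and Selberg, the characters of
irreducible Artin representations are orthonormal by Chebotarev's theorem.  This bounds the matrix of
the orders of all the `L(E_i ⊗ ρ_k, s)` on the line `Re s = 3/2`.
-/

set_option autoImplicit false

namespace Pool.Agent.Results.MP_bf61d2_nt.ModularArtinTwists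

open Complex Filter Topology ComplexConjugate NumberField IsDedekindDomain Polynomial
open Pool.Agent.Y722.EP (trace IsModular NotIsogenous)

/-- The absolute Galois group of `F`. -/
abbrev AbsGal (F : Type) [Field F] : Type := Gal(AlgebraicClosure F/F)

/-- `σ` is a Frobenius element at the prime `v` of `F`: there is a maximal ideal `Q` above `v` of the
ring of all algebraic integers with `σ x ≡ x ^ q_v` modulo `Q` for all `x`. -/
def IsFrobenius {F : Type} [Field F] [NumberField F] (v : HeightOneSpectrum (𝓞 F))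
    (σ : AbsGal F) : Prop :=
  ∃ Q : Ideal (𝓞 (AlgebraicClosure F)), Q.IsMaximal ∧
    Q.comap (algebraMap (𝓞 F) (𝓞 (AlgebraicClosure F))) = v.asIdeal ∧
    ∀ x : 𝓞 (AlgebraicClosure F), σ • x - x ^ Ideal.absNorm v.asIdeal ∈ Q

/-- The polynomials `B v` are the Euler factors of `E ⊗ ρ`, `E : y² = x³ + a x + b`, at all but
finitely many primes `v`: `B_v(z) = det(1 - a_v z ρ(Frob_v⁻¹) + q_v z² ρ(Frob_v⁻¹)²)`,
`a_v = q_v + 1 - #E(k_v)`. -/
def IsEulerFactor {F : Type} [Field F] [NumberField F] (a b : ℤ) {n : ℕ}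
    (ρ : Representation ℂ (AbsGal F) (Fin n → ℂ)) (B : HeightOneSpectrum (𝓞 F) → ℂ[X]) : Prop :=
  ∀ᶠ v in cofinite, ∀ σ : AbsGal F, IsFrobenius v σ → ∀ z : ℂ,
    (B v).eval z = LinearMap.det (1 - ((trace v a b : ℂ) * z) • ρ σ⁻¹ +
      ((Ideal.absNorm v.asIdeal : ℂ) * z ^ 2) • (ρ σ⁻¹) ^ 2)

/-- The Euler product `∏_v B_v(q_v^{-s})⁻¹`. -/
noncomputable def eulerProduct {F : Type} [Field F] [NumberField F]
    (B : HeightOneSpectrum (𝓞 F) → ℂ[X]) (s : ℂ) : ℂ :=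
  ∏' v : HeightOneSpectrum (𝓞 F), ((B v).eval ((Ideal.absNorm v.asIdeal : ℂ) ^ (-s)))⁻¹

/-- `log |L(E ⊗ ρ, 3/2 + iτ + ε)| / log (1/ε)`, which tends to the order of the pole at `3/2 + iτ` if
there is a meromorphic continuation to a neighbourhood. -/
noncomputable def size {F : Type} [Field F] [NumberField F]
    (B : HeightOneSpectrum (𝓞 F) → ℂ[X]) (τ ε : ℝ) : ℝ :=
  Real.log ‖eulerProduct B (3 / 2 + τ * I + ε)‖ / Real.log (1 / ε)

open Classical in
/-- The Gram number of the characters `χ, χ'` with the heights `τ, τ'`, constant on the cosets of the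
normal subgroup `U` of finite index in `G`: it is
`([τ = τ'] Re ⟨χ, χ'⟩ + [τ = -τ'] Re ⟨χ, χ'‾⟩) / 2`, where `⟨χ, χ'⟩` is the mean value of `χ χ'‾` over the
finite group `G / U`. -/
noncomputable def gram {G : Type} [Group G] (U : Subgroup G) (χ χ' : G → ℂ) (τ τ' : ℝ) : ℝ :=
  (∑ᶠ q : G ⧸ U, ((if τ = τ' then (χ q.out * conj (χ' q.out)).re else 0) +
    (if τ = -τ' then (χ q.out * χ' q.out).re else 0))) / (2 * Nat.card (G ⧸ U))

/-- **All Artin twists of modular elliptic curves on the edge `Re s = 3/2`.**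

`L_{ik}` is the Euler product of `E_i ⊗ ρ_k`, with arbitrary polynomials, not zero at `q_v^{-s_k}`,
`s_k = 3/2 + iτ_k`, as factors at finitely many primes; `x_{ik}(ε) = log |L_{ik}(s_k + ε)| / log(1/ε)`;
`g(k, l)` is the Gram number of `(ρ_k, τ_k)` and `(ρ_l, τ_l)`.

1. `L_{ik}(s_k + ε) ≠ 0` for small `ε > 0`.
2. (Nothing is assumed about continuation.)  For all `C` and `η > 0` and all sufficiently small
`ε > 0`: `(∑_{i,k} c_i d_k x_{ik}(ε))² ≤ (∑_i c_i²) (∑_{k,l} d_k d_l g(k, l)) + η` for all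
`0 ≤ c_i ≤ C` and all real `d_k`, `|d_k| ≤ C`.
3. Let the `L_{ik}` have meromorphic continuations to neighbourhoods of the points `s_k`.  These have
finite orders `m_{ik}` at `s_k`, `(∑_{i,k} c_i d_k m_{ik})² ≤ (∑_i c_i²) (∑_{k,l} d_k d_l g(k, l))` for
`c_i ≥ 0` and real `d_k`, and, for irreducible `ρ_k`, `ρ_l`:
* if `m_{ik} ≠ 0` then `τ_k = 0`, the character of `ρ_k` is real, `|m_{ik}| = 1`, `n_k = dim ρ_k ≤ 2`,
and `a_v / √q_v` is `-m_{ik}` times the value of the character at `Frob_v` in mean square;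
* for every `i` there is at most one pair `(ρ_k, τ_k)`, up to equivalence, with `m_{ik} ≠ 0`;
* for every `k` at most one of the curves `E_i` has `m_{ik} > 0`, and at most one has `m_{ik} < 0`. -/
theorem result (ι : Type) [Fintype ι] (a b : ι → ℤ) (hΔ : ∀ i, 4 * a i ^ 3 + 27 * b i ^ 2 ≠ 0)
    (hmod : ∀ i, IsModular (a i) (b i))
    (hne : ∀ i j, i ≠ j → NotIsogenous (a i) (b i) (a j) (b j))
    (U : Subgroup (AbsGal ℚ)) [U.Normal] (hU : IsOpen (U : Set (AbsGal ℚ)))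
    (κ : Type) [Fintype κ] (n : κ → ℕ)
    (ρ : ∀ k, Representation ℂ (AbsGal ℚ) (Fin (n k) → ℂ))
    (hρ : ∀ k, ∀ u ∈ U, ρ k u = 1) (τ : κ → ℝ)
    (B : ι → κ → HeightOneSpectrum (𝓞 ℚ) → ℂ[X])
    (hB : ∀ i k, IsEulerFactor (a i) (b i) (ρ k) (B i k))
    (hB0 : ∀ i k, ∀ v,
      (B i k v).eval ((Ideal.absNorm v.asIdeal : ℂ) ^ (-(3 / 2 + τ k * I : ℂ))) ≠ 0) :
    (∀ i k, ∀ᶠ ε : ℝ in 𝓝[>] 0, eulerProduct (B i k) (3 / 2 + τ k * I + ε) ≠ 0) ∧
    (∀ C η : ℝ, 0 < η → ∀ᶠ ε : ℝ in 𝓝[>] 0, ∀ (c : ι → ℝ) (d : κ → ℝ),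
      (∀ i, 0 ≤ c i ∧ c i ≤ C) → (∀ k, |d k| ≤ C) →
      (∑ i, ∑ k, c i * d k * size (B i k) (τ k) ε) ^ 2 ≤ (∑ i, c i ^ 2) *
        (∑ k, ∑ l, d k * d l * gram U (ρ k).character (ρ l).character (τ k) (τ l)) + η) ∧
    (∀ Λ : ι → κ → ℂ → ℂ, (∀ i k, MeromorphicAt (Λ i k) (3 / 2 + τ k * I) ∧
      ∀ᶠ s in 𝓝 (3 / 2 + τ k * I : ℂ), 3 / 2 < s.re → Λ i k s = eulerProduct (B i k) s) →
      ∃ m : ι → κ → ℤ, (∀ i k, meromorphicOrderAt (Λ i k) (3 / 2 + τ k * I) = m i k) ∧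
        (∀ (c : ι → ℝ) (d : κ → ℝ), (∀ i, 0 ≤ c i) →
          (∑ i, ∑ k, c i * d k * m i k) ^ 2 ≤ (∑ i, c i ^ 2) *
            (∑ k, ∑ l, d k * d l * gram U (ρ k).character (ρ l).character (τ k) (τ l))) ∧
        (∀ i k, (ρ k).IsIrreducible → m i k ≠ 0 →
          τ k = 0 ∧ (∀ g, ((ρ k).character g).im = 0) ∧ |m i k| = 1 ∧ n k ≤ 2 ∧
          ∀ σ : HeightOneSpectrum (𝓞 ℚ) → AbsGal ℚ,
            (∀ v, IsFrobenius v (σ v)) → Tendsto (fun ε : ℝ => (∑' v : HeightOneSpectrum (𝓞 ℚ),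
              ((trace v (a i) (b i) : ℝ) / Real.sqrt (Ideal.absNorm v.asIdeal) +
                m i k * ((ρ k).character (σ v)).re) ^ 2 *
                (Ideal.absNorm v.asIdeal : ℝ) ^ (-(1 + ε))) / Real.log (1 / ε))
              (𝓝[>] 0) (𝓝 0)) ∧
        (∀ i k l, (ρ k).IsIrreducible → (ρ l).IsIrreducible → k ≠ l →
          (τ k = τ l → IsEmpty ((ρ k).Equiv (ρ l))) → m i k = 0 ∨ m i l = 0) ∧
        (∀ i j k, i ≠ j → (ρ k).IsIrreducible → m i k * m j k ≤ 0)) := by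
  classical
  have hfin : Finite (AbsGal ℚ ⧸ U) := Subgroup.quotient_finite_of_isOpen U hU
  choose σ hσ using W540.BE.exists_isFrob (F := ℚ)
  have hR := R433.AT.meanOne a b hmod hne hΔ
  have hsz := fun i k => R433.AT.size_ab (F := ℚ) U (hΔ i) (ρ k) (hρ k) (τ k) (B i k) (hB i k)
    (hB0 i k) σ hσ (eulerProduct (B i k)) (fun s => rfl)
  have hgram : ∀ k l, R433.AT.gr U ρ hρ τ k l =
      gram U (ρ k).character (ρ l).character (τ k) (τ l) :=
    fun k l => R433.AT.gr_eq U ρ hρ τ k l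
  refine ⟨fun i k => (hsz i k).1, fun C η hη => ?_, fun Λ hΛ => ?_⟩
  · have h := R433.AT.matrix_ineq U ρ hρ hR hU τ σ hσ (fun i k => (hsz i k).2) (C := C) hη
    simp only [hgram] at h
    exact h
  · have hord : ∀ i k, ∃ m : ℤ, meromorphicOrderAt (Λ i k) (3 / 2 + τ k * I) = m ∧
        Tendsto (fun ε : ℝ => Real.log ‖eulerProduct (B i k) (3 / 2 + τ k * I + ε)‖ /
          Real.log (1 / ε)) (𝓝[>] 0) (𝓝 (-(m : ℝ))) := by
      intro i k
      have hev : ∀ᶠ ε : ℝ in 𝓝[>] 0, Λ i k (3 / 2 + τ k * I + ε) =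
          eulerProduct (B i k) (3 / 2 + τ k * I + ε) := by
        have h4 := (Pool.Agent.H341R2.path_tendsto' (3 / 2 + τ k * I : ℂ)).eventually (hΛ i k).2
        filter_upwards [h4, self_mem_nhdsWithin] with ε h5 h6
        have hε : (0 : ℝ) < ε := h6
        refine h5 ?_
        have e : (3 / 2 + (τ k : ℂ) * I + (ε : ℂ)).re = 3 / 2 + ε := by simp
        rw [e]
        linarith
      have hne : ∀ᶠ ε : ℝ in 𝓝[>] 0, Λ i k (3 / 2 + τ k * I + ε) ≠ 0 := by
        filter_upwards [hev, (hsz i k).1] with ε h5 h6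
        rw [h5]
        exact h6
      obtain ⟨m, hm1, hm2⟩ := W540.BE.order_of_size (hΛ i k).1 hne
      refine ⟨m, hm1, hm2.congr' ?_⟩
      filter_upwards [hev] with ε h5
      rw [h5]
    choose m hm1 hm2 using hord
    have hx := fun i k => (hsz i k).2
    refine ⟨m, hm1, fun c d hc => ?_, fun i k hk hm => ?_, fun i k l hk hl hkl hE => ?_,
      fun i j k hij hk => ?_⟩
    · have h := R433.AT.matrix_order U ρ hρ hR hU τ σ hσ hx m hm2 c d hc
      simp only [hgram] at h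
      exact h
    · obtain ⟨h1, h2, h3, -⟩ := R433.AT.exceptional U ρ hρ hR hU τ σ hσ hx m hm2 hk hm
      refine ⟨h1, R433.AT.im_of_chF U ρ hρ h2, ?_,
        R433.AT.degree_le U ρ hρ hR hU τ σ hσ hx m hm2 hk hm, fun σ' hσ' => ?_⟩
      · have h4 := (sq_eq_sq_iff_abs_eq_abs (m i k) 1).1 (by rw [h3]; norm_num)
        rw [h4, abs_one]
      · have hsz' := fun i k => R433.AT.size_ab (F := ℚ) U (hΔ i) (ρ k) (hρ k) (τ k) (B i k)
          (hB i k) (hB0 i k) σ' hσ' (eulerProduct (B i k)) (fun s => rfl)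
        have h5 := R433.AT.mean_sq_zero U ρ hρ hR hU τ σ' hσ' (fun i k => (hsz' i k).2) m hm2
          hk hm
        exact R433.AT.mean_sq_trace U ρ hρ τ σ' (m i k) h1 h5
    · by_contra h
      push Not at h
      exact h.2 (R433.AT.row_unique U ρ hρ hR hU τ σ hσ hx m hm2 hk hl hkl hE h.1)
    · exact R433.AT.col_unique U ρ hρ hR hU τ σ hσ hx m hm2 hij hk

end Pool.Agent.Results.MP_bf61d2_nt.ModularArtinTwists
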