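import Pool.Agent.R399.TV.Vq
import Pool.Agent.R399.TV.Tx

/-!
# The Hasse-Weil conjecture for almost all quadratic twists of an elliptic curve over a number field

Let `E` be an elliptic curve over a number field `K`.  For an odd squarefree integer `q ≥ 3` let
`q* = (-1)^((q-1)/2) q` (the discriminant of `ℚ(√q*)`) and let `E_{q*}` be the quadratic twist of `E`
by `q*`.  If `K ≠ ℚ` the functions `L(E_{q*}/K, s)` are in general not known to be entire: if `K` is
totally real or CM they are known to be meromorphic (potential modularity and Brauer's theorem), and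
nothing is known on their poles in the strip `1/2 < Re s < 3/2` away from a neighbourhood of the edge
`Re s = 3/2` of logarithmic width.

Potential modularity and Brauer's theorem give, for all Dirichlet characters `χ` of conductor prime to
`N` at the same time, `L_N(E, χ, s + 1/2) = ∏_i L_N(s, π_i ⊗ χ)^(n_i)`, `n_i ∈ ℤ`, where `L_N` means
that the Euler factors at the primes dividing `N` are omitted, and `L(s, π_i ⊗ χ)` are the L-functions
of the twists of a cuspidal representation of `GL_2` over an extension `F_i` of `K`: Euler products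
over `ℚ` of degree `m_i = 2 [F_i : ℚ]`, entire, with a functional equation.  This is the structure
`Decomposition`.  Let `M` be the maximum of the `m_i`.

**Theorem.** (1) For `0 ≤ δ ≤ 1/2`, `T ≥ 0` the number of the squarefree `q ≤ X` prime to `N` for which
`L_N(E_{q*}/K, s)` has no continuation to `Re s > 3/2` and `Re s > 1 + δ`, `|Im s| < T` which is
holomorphic and without zeros is at most `C (1 + T)^(2M+1) (1 + log X)^B X^(E(M, δ))`.
(2) If `E(M, δ) < 1`, then there is `η > 0` such that for all but `O(X^(1-η))` of these `q`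
the function `L_N(E_{q*}/K, s)` is holomorphic and without zeros in `Re s > 1 + δ`, `|Im s| < X^η`.
(3) `E(M, δ) < 1` if `δ > 1/2 - 2/(2M+9)`.

Here `L_N(E_{q*}/K, s)` is the Euler product of the problem (minimal models at all places) without the
factors at the places dividing `N`; these factors have neither zeros nor poles in `Re s > 1/2`.

Proof.  `MP_7ed9c3_nt.AlmostAllTwists` of this run treats all primitive characters of conductor at most
`X`: the exceptional ones are `O(X^(E(M, δ)))`, up to logarithms.  If `E(M, δ) < 1` this is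
less than the number of the quadratic characters.  By the law of quadratic reciprocity
`a_v(E_{q*}) = (q*/v) a_v(E) = (Nv/q) a_v(E)` (Jacobi symbol) at the places `v` prime to `N q`, and
`E_{q*}` has additive reduction at the places `v` dividing `q`, which is proved here from the
definition with minimal models; so `L_N(E_{q*}/K, s) = L_N(E, χ, s)`, `χ` being the Jacobi symbol
modulo `q`, a primitive character.
-/

set_option autoImplicit false

open Complex NumberField IsDedekindDomain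
open scoped ComplexConjugate

namespace Pool.Agent.Results.MP_bf61d2_nt.QuadraticTwists

section

variable {K : Type} [Field K] [NumberField K]

/-- `V v` is, for every `v`, an integral model of `E` with discriminant minimal at `v`. -/
def MinimalModels (E : WeierstrassCurve K)
    (V : HeightOneSpectrum (𝓞 K) → WeierstrassCurve (𝓞 K)) : Prop :=
  ∀ v : HeightOneSpectrum (𝓞 K),
    (∃ C : WeierstrassCurve.VariableChange K, C • E = (V v).map (algebraMap (𝓞 K) K)) ∧
    ∀ W : WeierstrassCurve (𝓞 K),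
      (∃ C : WeierstrassCurve.VariableChange K, C • E = W.map (algebraMap (𝓞 K) K)) →
        ∀ n : ℕ, (V v).Δ ∈ v.asIdeal ^ n → W.Δ ∈ v.asIdeal ^ n

/-- `a_v = Nv - #{affine points of the reduction of V v}`; it is `Nv + 1 - #E(k_v)` if the reduction is
good and `1`, `-1`, `0` if it is split multiplicative, non-split multiplicative, additive. -/
noncomputable def trace (V : HeightOneSpectrum (𝓞 K) → WeierstrassCurve (𝓞 K))
    (v : HeightOneSpectrum (𝓞 K)) : ℤ :=
  (Ideal.absNorm v.asIdeal : ℤ) -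
    (Nat.card {p : (𝓞 K ⧸ v.asIdeal) × (𝓞 K ⧸ v.asIdeal) //
      p.2 ^ 2 + Ideal.Quotient.mk v.asIdeal (V v).a₁ * p.1 * p.2
        + Ideal.Quotient.mk v.asIdeal (V v).a₃ * p.2
      = p.1 ^ 3 + Ideal.Quotient.mk v.asIdeal (V v).a₂ * p.1 ^ 2
        + Ideal.Quotient.mk v.asIdeal (V v).a₄ * p.1
        + Ideal.Quotient.mk v.asIdeal (V v).a₆} : ℤ)

open Classical in
/-- The Euler product of the L-series of the elliptic curve with the minimal models `V`, without the
factors at the places dividing `N`. -/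
noncomputable def LSeries (N : ℕ) (V : HeightOneSpectrum (𝓞 K) → WeierstrassCurve (𝓞 K))
    (s : ℂ) : ℂ :=
  ∏' v : HeightOneSpectrum (𝓞 K), if ((N : ℕ) : 𝓞 K) ∈ v.asIdeal then (1 : ℂ) else
    (1 - (trace V v : ℂ) * ((Ideal.absNorm v.asIdeal : ℕ) : ℂ) ^ (-s) +
      (if (V v).Δ ∈ v.asIdeal then (0 : ℂ) else 1) *
        ((Ideal.absNorm v.asIdeal : ℕ) : ℂ) ^ (1 - 2 * s))⁻¹

open Classical in
/-- The same for the L-series twisted by the Dirichlet character `χ`. -/
noncomputable def twistedLSeries (N : ℕ) (V : HeightOneSpectrum (𝓞 K) → WeierstrassCurve (𝓞 K))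
    {q : ℕ} (χ : DirichletCharacter ℂ q) (s : ℂ) : ℂ :=
  ∏' v : HeightOneSpectrum (𝓞 K), if ((N : ℕ) : 𝓞 K) ∈ v.asIdeal then (1 : ℂ) else
    (1 - χ ((Ideal.absNorm v.asIdeal : ℕ) : ZMod q) * (trace V v : ℂ) *
        ((Ideal.absNorm v.asIdeal : ℕ) : ℂ) ^ (-s) +
      (if (V v).Δ ∈ v.asIdeal then (0 : ℂ) else 1) *
        χ ((Ideal.absNorm v.asIdeal : ℕ) : ZMod q) ^ 2 *
        ((Ideal.absNorm v.asIdeal : ℕ) : ℂ) ^ (1 - 2 * s))⁻¹

/-- The quadratic twist `y² = x³ - 27 d² c₄ x - 54 d³ c₆` of `E` by `d`, isomorphic to `E` over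
`K(√d)`. -/
noncomputable def quadraticTwist (E : WeierstrassCurve K) (d : ℤ) : WeierstrassCurve K where
  a₁ := 0
  a₂ := 0
  a₃ := 0
  a₄ := -27 * (d : K) ^ 2 * E.c₄
  a₆ := -54 * (d : K) ^ 3 * E.c₆

end

/-- `q* = (-1)^((q-1)/2) q`, for odd `q` -/
def star (q : ℕ) : ℤ := (-1) ^ (q / 2) * q

/-- `R^(s/2) ∏ Γ_ℝ(s + μ_j)` -/
noncomputable def gammaFactor {m : ℕ} (R : ℝ) (μ : Fin m → ℂ) (s : ℂ) : ℂ :=
  (R : ℂ) ^ (s / 2) * ∏ j, Gammaℝ (s + μ j)

/-- The data of a family `L(s, π ⊗ χ)`, `χ` a primitive Dirichlet character of conductor `q ≥ 2` prime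
to `N`, `π` being a cuspidal representation of `GL_2` over a number field `F` of degree `m / 2`, for
which the Ramanujan conjecture is known: the number `N`, the Satake parameters `α p j` of the Euler
product over `ℚ` (some are zero if `p ∣ N`), the parameters `μ_j` of the Gamma factors
`∏ Γ_ℝ(s + μ_j)`, the completed L-functions `Λ q χ`. -/
structure Factor (m : ℕ) where
  /-- the conductor -/
  N : ℕ
  /-- the Satake parameters -/
  α : ℕ → Fin m → ℂ
  /-- the archimedean parameters -/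
  μ : ℂ → Fin m → ℂ
  /-- the completed L-functions of the twists -/
  Λ : (q : ℕ) → DirichletCharacter ℂ q → ℂ → ℂ
  N_pos : 1 ≤ N
  /-- the Ramanujan conjecture (here: Hasse's theorem) -/
  α_le : ∀ p : ℕ, p.Prime → ∀ j, ‖α p j‖ ≤ 1
  μ_re : ∀ ε : ℂ, ε = 1 ∨ ε = -1 → ∀ j, -1 / 2 < (μ ε j).re
  entire : ∀ (q : ℕ) (χ : DirichletCharacter ℂ q), 2 ≤ q → Nat.Coprime q N → χ.IsPrimitive →
    Differentiable ℂ (Λ q χ)
  /-- bounded in vertical strips -/
  bounded : ∀ (q : ℕ) (χ : DirichletCharacter ℂ q), 2 ≤ q → Nat.Coprime q N → χ.IsPrimitive →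
    ∀ a b : ℝ, ∃ C : ℝ, ∀ s : ℂ, a ≤ s.re → s.re ≤ b → ‖Λ q χ s‖ ≤ C
  /-- the functional equation, `conj Λ(conj s, π ⊗ χ)` being that of the contragredient -/
  functional : ∀ (q : ℕ) (χ : DirichletCharacter ℂ q), 2 ≤ q → Nat.Coprime q N → χ.IsPrimitive →
    ∃ w : ℂ, ‖w‖ = 1 ∧ ∀ s : ℂ, Λ q χ (1 - s) = w * conj (Λ q χ (conj s))
  euler : ∀ (q : ℕ) (χ : DirichletCharacter ℂ q), 2 ≤ q → Nat.Coprime q N → χ.IsPrimitive →
    ∀ s : ℂ, 1 < s.re → HasProd (fun p : Nat.Primes => ∏ j, (1 - χ ((p : ℕ) : ZMod q) * α p j *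
      ((p : ℕ) : ℂ) ^ (-s))⁻¹) (Λ q χ s / gammaFactor ((N : ℝ) * (q : ℝ) ^ m) (μ (χ (-1))) s)

/-- `L_N(s, π ⊗ χ)`: the value `L(s, π ⊗ χ)` without the Euler factors at the primes dividing `N`. -/
noncomputable def Factor.value {m : ℕ} (π : Factor m) (N q : ℕ) (χ : DirichletCharacter ℂ q)
    (s : ℂ) : ℂ :=
  π.Λ q χ s / gammaFactor ((π.N : ℝ) * (q : ℝ) ^ m) (π.μ (χ (-1))) s *
    ∏ p ∈ N.primeFactors, ∏ j, (1 - χ ((p : ℕ) : ZMod q) * π.α p j * ((p : ℕ) : ℂ) ^ (-s))

/-- The decomposition given by potential modularity and Brauer's theorem, for all `χ` of conductor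
prime to `N`, `N` being divisible by `6`, by the primes ramified in `K`, by the primes below the
places of bad reduction, and by the conductors of the factors. -/
structure Decomposition {K : Type} [Field K] [NumberField K]
    (V : HeightOneSpectrum (𝓞 K) → WeierstrassCurve (𝓞 K)) where
  /-- the number of factors -/
  r : ℕ
  /-- the degrees -/
  m : Fin r → ℕ
  /-- the factors -/
  π : ∀ i, Factor (m i)
  /-- the exponents -/
  n : Fin r → ℤ
  /-- the exceptional modulus -/
  N : ℕ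
  N_pos : 1 ≤ N
  six_dvd : 6 ∣ N
  unramified : ∀ v : HeightOneSpectrum (𝓞 K), ((N : ℕ) : 𝓞 K) ∉ v.asIdeal →
    ∀ p : ℕ, p.Prime → ((p : ℕ) : 𝓞 K) ∉ v.asIdeal ^ 2
  good : ∀ v : HeightOneSpectrum (𝓞 K), ((N : ℕ) : 𝓞 K) ∉ v.asIdeal → (V v).Δ ∉ v.asIdeal
  dvd : ∀ i, (π i).N ∣ N
  factorisation : ∀ (q : ℕ) (χ : DirichletCharacter ℂ q), 2 ≤ q → Nat.Coprime q N →
    χ.IsPrimitive → ∀ s : ℂ, 1 < s.re →
      twistedLSeries N V χ (s + 1 / 2) = ∏ i, (π i).value N q χ s ^ n i

/-- The function `f` on `Re s > 3/2` has a continuation to the union of `Re s > 3/2` and of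
`Re s > 1 + δ`, `|Im s| < T`, which is holomorphic and without zeros. -/
def Continues (f : ℂ → ℂ) (δ T : ℝ) : Prop :=
  ∃ G : ℂ → ℂ, DifferentiableOn ℂ G {s : ℂ | 3 / 2 < s.re ∨ (1 + δ < s.re ∧ |s.im| < T)} ∧
    (∀ s ∈ {s : ℂ | 3 / 2 < s.re ∨ (1 + δ < s.re ∧ |s.im| < T)}, G s ≠ 0) ∧
    ∀ s : ℂ, 3 / 2 < s.re → G s = f s

/-- The number of the squarefree `q`, `3 ≤ q ≤ X`, prime to `N`, which have the property `S q`. -/
noncomputable def count (N X : ℕ) (S : ℕ → Prop) : ℕ :=
  {q : ℕ | 3 ≤ q ∧ q ≤ X ∧ Squarefree q ∧ Nat.Coprime q N ∧ S q}.ncard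

/-- The exponent `E(m, δ)`. -/
noncomputable def expo (m : ℕ) (δ : ℝ) : ℝ :=
  if m ≤ 3 then 2 * (1 - 2 * δ) * (3 + (m + 1) * δ) / (3 - δ)
  else 2 * (1 - 2 * δ) * (5 + 2 * m * δ) / (5 - 2 * δ)

/-! ### Auxiliary facts -/

/-- the form used by the library -/
noncomputable def Factor.toFD {m : ℕ} (π : Factor m) : Pool.Agent.R399.TV.FD m where
  N := π.N
  α := π.α
  μ := π.μ
  Λ := π.Λ
  N_pos := π.N_pos
  α_le := π.α_le
  μ_re := π.μ_re
  entire := π.entire
  bdd := π.bounded
  fe := π.functional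
  euler := π.euler

lemma value_eq {m : ℕ} (π : Factor m) (N q : ℕ) (χ : DirichletCharacter ℂ q) (s : ℂ) :
    π.value N q χ s = π.toFD.F q χ s * π.toFD.H N χ s := by
  rw [Pool.Agent.R399.TV.FD.F_eq]
  rfl

lemma Decomposition.vq {K : Type} [Field K] [NumberField K]
    {V : HeightOneSpectrum (𝓞 K) → WeierstrassCurve (𝓞 K)} (P : Decomposition V) :
    Pool.Agent.R399.TV.VQ (fun i => (P.π i).toFD) P.n P.N (fun _ χ => twistedLSeries P.N V χ) where
  dvd := P.dvd
  fac := fun q χ hq hqN hχ s hs => by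
    rw [P.factorisation q χ hq hqN hχ s hs]
    exact Finset.prod_congr rfl fun i _ => by rw [value_eq]

lemma twist_eq {K : Type} [Field K] [NumberField K] (E : WeierstrassCurve K) (d : ℤ) :
    quadraticTwist E d = Pool.Agent.H341R2.EC.twist E (((d : ℤ) : 𝓞 K) : K) := by
  unfold quadraticTwist Pool.Agent.H341R2.EC.twist
  have : (((d : ℤ) : 𝓞 K) : K) = (d : K) := by
    simp
  rw [this]

/-- the L-series of the twist is the twisted L-series -/
theorem LSeries_twist {K : Type} [Field K] [NumberField K] {E : WeierstrassCurve K}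
    {V : HeightOneSpectrum (𝓞 K) → WeierstrassCurve (𝓞 K)} (hV : MinimalModels E V)
    (P : Decomposition V) {q : ℕ} [NeZero q] (hq : Squarefree q) (hodd : Odd q)
    {W : HeightOneSpectrum (𝓞 K) → WeierstrassCurve (𝓞 K)}
    (hW : MinimalModels (quadraticTwist E (star q)) W) (s : ℂ) :
    LSeries P.N W s = twistedLSeries P.N V (Pool.Agent.R399.TV.jch q) s := by
  classical
  unfold LSeries twistedLSeries
  refine tprod_congr fun v => ?_
  split_ifs with hv h1 h2 h2
  all_goals first | rfl | skip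
  all_goals
    have h6 : (6 : 𝓞 K) ∉ v.asIdeal := by
      intro h
      obtain ⟨c, hc⟩ := P.six_dvd
      apply hv
      rw [hc]
      push_cast
      exact v.asIdeal.mul_mem_right _ h
    have hW' := hW v
    rw [twist_eq] at hW'
    congr 1
  · exact Pool.Agent.R399.TV.factor_eq (E := E) (V := V v) (V' := W v) (hV v).1 (P.good v hv) h6
      (P.unramified v hv) hq hodd hW' _ _ (fun h => absurd h2 h) (fun _ => rfl)
      (fun h => absurd h1 h)
  · exact Pool.Agent.R399.TV.factor_eq (E := E) (V := V v) (V' := W v) (hV v).1 (P.good v hv) h6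
      (P.unramified v hv) hq hodd hW' _ _ (fun _ => rfl) (fun _ => rfl)
      (fun h => absurd h1 h)
  · exact Pool.Agent.R399.TV.factor_eq (E := E) (V := V v) (V' := W v) (hV v).1 (P.good v hv) h6
      (P.unramified v hv) hq hodd hW' _ _ (fun h => absurd h2 h) (fun h => absurd h h1)
      (fun _ => rfl)
  · exact Pool.Agent.R399.TV.factor_eq (E := E) (V := V v) (V' := W v) (hV v).1 (P.good v hv) h6
      (P.unramified v hv) hq hodd hW' _ _ (fun _ => rfl) (fun h => absurd h h1)
      (fun _ => rfl)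

lemma count_le {N X : ℕ} {S : ℕ → Prop} {S' : (q : ℕ) → DirichletCharacter ℂ q → Prop}
    (h : ∀ q : ℕ, 3 ≤ q → Squarefree q → Nat.Coprime q N → S q →
      ∃ χ : DirichletCharacter ℂ q, χ.IsPrimitive ∧ S' q χ) :
    count N X S ≤ Pool.Agent.R399.TW.count N X S' := by
  classical
  have h1 : {q : ℕ | 3 ≤ q ∧ q ≤ X ∧ Squarefree q ∧ Nat.Coprime q N ∧ S q} =
      (((Finset.Icc 3 X).filter fun q => Squarefree q ∧ Nat.Coprime q N ∧ S q : Finset ℕ) : Set ℕ) := by
    ext q
    simp only [Set.mem_setOf_eq, Finset.coe_filter, Finset.mem_Icc]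
    tauto
  unfold count
  rw [h1, Set.ncard_coe_finset]
  refine Pool.Agent.R399.TV.sub_count _ fun q hq => ?_
  rw [Finset.mem_filter, Finset.mem_Icc] at hq
  obtain ⟨⟨a, b⟩, c, d, e⟩ := hq
  exact ⟨by omega, b, d, h q a c d e⟩

lemma bad_le {K : Type} [Field K] [NumberField K] {E : WeierstrassCurve K}
    {V : HeightOneSpectrum (𝓞 K) → WeierstrassCurve (𝓞 K)} (hV : MinimalModels E V)
    (P : Decomposition V) {W : ℕ → HeightOneSpectrum (𝓞 K) → WeierstrassCurve (𝓞 K)}
    (hW : ∀ q : ℕ, Squarefree q → Nat.Coprime q P.N →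
      MinimalModels (quadraticTwist E (star q)) (W q)) (X : ℕ) (δ T : ℝ) :
    count P.N X (fun q => ¬ Continues (LSeries P.N (W q)) δ T) ≤
      Pool.Agent.R399.TW.count P.N X
        (fun _ χ => ¬ Pool.Agent.R399.TV.Cont (twistedLSeries P.N V χ) δ T) := by
  refine count_le fun q h3 hq hqN hc => ?_
  have hodd : Odd q := by
    rw [← Nat.not_even_iff_odd, even_iff_two_dvd]
    intro h2
    have h4 : 2 ∣ P.N := dvd_trans (by norm_num) P.six_dvd
    have := Nat.dvd_gcd h2 h4
    rw [hqN] at this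
    norm_num at this
  have : NeZero q := ⟨by omega⟩
  refine ⟨Pool.Agent.R399.TV.jch q, Pool.Agent.R399.TV.jch_prim hq hodd, fun hcon => hc ?_⟩
  have h5 : LSeries P.N (W q) = twistedLSeries P.N V (Pool.Agent.R399.TV.jch q) :=
    funext fun s => LSeries_twist hV P hq hodd (hW q hq hqN) s
  rw [h5]
  exact hcon

/-- **Theorem.** Let `E` be an elliptic curve over a number field `K` with minimal models `V`, with the
decomposition `P`, all degrees of `P` being at most `M`, and let `W q` be minimal models of the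
quadratic twist of `E` by `q*`, for every squarefree `q` prime to `P.N`.  (1) The density theorem.
(2) Half planes in which almost all `L_N(E_{q*}, s)` are holomorphic and without zeros.  (3) The
condition of (2). -/
theorem result (K : Type) [Field K] [NumberField K] (E : WeierstrassCurve K) (_hE : E.IsElliptic)
    (V : HeightOneSpectrum (𝓞 K) → WeierstrassCurve (𝓞 K)) (hV : MinimalModels E V)
    (P : Decomposition V) (M : ℕ) (hM2 : 2 ≤ M) (hM : ∀ i, P.m i ≤ M)
    (W : ℕ → HeightOneSpectrum (𝓞 K) → WeierstrassCurve (𝓞 K))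
    (hW : ∀ q : ℕ, Squarefree q → Nat.Coprime q P.N →
      MinimalModels (quadraticTwist E (star q)) (W q)) :
    (∃ C B : ℝ, ∀ (X : ℕ) (δ T : ℝ), 1 ≤ X → 0 ≤ δ → δ ≤ 1 / 2 → 0 ≤ T →
      (count P.N X (fun q => ¬ Continues (LSeries P.N (W q)) δ T) : ℝ) ≤
        C * (1 + T) ^ (2 * M + 1) * (1 + Real.log X) ^ B * (X : ℝ) ^ (expo M δ)) ∧
    (∀ δ : ℝ, 0 ≤ δ → δ ≤ 1 / 2 → expo M δ < 1 → ∃ C η : ℝ, 0 < η ∧ ∀ X : ℕ, 1 ≤ X →
      (count P.N X (fun q => ¬ Continues (LSeries P.N (W q)) δ ((X : ℝ) ^ η)) : ℝ) ≤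
        C * (X : ℝ) ^ (1 - η)) ∧
    (∀ δ : ℝ, 1 / 2 - 2 / (2 * (M : ℝ) + 9) < δ → δ ≤ 1 / 2 → expo M δ < 1) := by
  obtain ⟨C, B, hC, hB, h⟩ := P.vq.dens2 hM
  have hb := fun (X : ℕ) (δ T : ℝ) => bad_le hV P hW X δ T
  refine ⟨⟨C, B, fun X δ T hX h0 h1 hT => ?_⟩, fun δ h0 h1 hlt => ?_, fun δ h1 h2 => ?_⟩
  · refine le_trans ?_ (h X δ T hX h0 h1 hT)
    exact_mod_cast hb X δ T
  · obtain ⟨η, C', hη, hs⟩ := Pool.Agent.R399.TV.saving (M := M) hC hB
      (show Pool.Agent.R399.TW.ex2 M δ < 1 from hlt)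
    refine ⟨C', η, hη, fun X hX => ?_⟩
    have hX1 : (1 : ℝ) ≤ X := by exact_mod_cast hX
    refine le_trans ?_ (hs X hX1)
    refine le_trans ?_ (h X δ ((X : ℝ) ^ η) hX h0 h1 (by positivity))
    exact_mod_cast hb X δ ((X : ℝ) ^ η)
  · exact Pool.Agent.R399.TV.ex2_lt_one hM2 h2 h1

end Pool.Agent.Results.MP_bf61d2_nt.QuadraticTwists
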